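import Mathlib

set_option autoImplicit false

namespace Pool.Agent.H.MP_8ec86e_an

open Filter Topology Finset
open scoped InnerProductSpace

/-- the class of Temlyakov, indices shifted by one -/
def V (τ : ℕ → ℝ) : Prop :=
  ∃ q : ℕ → ℕ, q 0 = 0 ∧ StrictMono q ∧
    Summable (fun s => (2 : ℝ) ^ (s + 1) / ((q (s + 1) : ℝ) - q s)) ∧
    Summable (fun s => (1 / 2 : ℝ) ^ (s + 1) * ∑ k ∈ range (q (s + 1)), τ k ^ 2)

theorem seq_V (τ a : ℕ → ℝ) (h0 : ∀ k, 0 ≤ τ k) (h1 : ∀ k, τ k ≤ 1) (ha : ∀ k, 0 ≤ a k)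
    (hs : Summable fun k => a k ^ 2) (δ : ℝ) (hδ : 0 < δ) (n0 : ℕ)
    (h : ∀ n, n0 ≤ n → δ * τ n ≤ a n * (1 + ∑ j ∈ range (n + 1), a j)) : V τ := by
  classical
  obtain ⟨S, hS⟩ : ∃ S : ℕ → ℝ, ∀ n, S n = ∑ j ∈ range n, a j := ⟨_, fun _ => rfl⟩
  have Sm : Monotone S := monotone_nat_of_le_succ fun n => by
    rw [hS, hS, sum_range_succ]; linarith [ha n]
  obtain ⟨Z, hZ⟩ : ∃ Z : ℝ, ∀ n, ∑ j ∈ range n, a j ^ 2 ≤ Z :=
    ⟨_, fun n => hs.sum_le_tsum _ (fun _ _ => sq_nonneg _)⟩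
  have Z0 : 0 ≤ Z := by simpa using hZ 0
  have hB : ∀ n, a n ≤ 1 + Z := by
    intro n
    have h2 := hZ (n + 1)
    rw [sum_range_succ] at h2
    have : 0 ≤ ∑ j ∈ range n, a j ^ 2 := sum_nonneg fun _ _ => sq_nonneg _
    nlinarith [sq_nonneg (a n - 1), ha n]
  obtain ⟨r, hr0, hr⟩ : ∃ r : ℝ, 0 < r ∧ r ^ 2 = 2 :=
    ⟨√2, by positivity, Real.sq_sqrt (by norm_num)⟩
  have hr1 : 7 / 5 ≤ r := by nlinarith
  have hrp : ∀ s : ℕ, (r ^ s) ^ 2 = 2 ^ s := fun s => by rw [← pow_mul, mul_comm, pow_mul, hr]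
  have ex : ∀ s m : ℕ, ∃ n, S m + r ^ (s + 1) ≤ S n ∨ m + 4 ^ (s + 1) ≤ n :=
    fun s m => ⟨_, Or.inr le_rfl⟩
  obtain ⟨q, q0, qs⟩ : ∃ q : ℕ → ℕ, q 0 = 0 ∧ ∀ s, q (s + 1) = Nat.find (ex s (q s)) :=
    ⟨fun s => Nat.rec 0 (fun s m => Nat.find (ex s m)) s, rfl, fun _ => rfl⟩
  have qlt : ∀ s, q s < q (s + 1) := by
    intro s
    rw [qs, Nat.lt_find_iff]
    intro m hm
    push Not
    have := Sm hm
    have h2 : 0 < r ^ (s + 1) := by positivity
    have h3 : 0 < 4 ^ (s + 1) := by positivity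
    exact ⟨by linarith, by omega⟩
  have qm : StrictMono q := strictMono_nat_of_lt_succ qlt
  obtain ⟨A, hA⟩ : ∃ A : ℕ → ℝ, ∀ s, A s = ∑ k ∈ Ico (q s) (q (s + 1)), a k ^ 2 :=
    ⟨_, fun _ => rfl⟩
  have A0 : ∀ s, 0 ≤ A s := fun s => by rw [hA]; exact sum_nonneg fun _ _ => sq_nonneg _
  have AZ : ∀ N, ∑ s ∈ range N, A s ≤ Z := by
    intro N
    have : ∑ s ∈ range N, A s = ∑ j ∈ range (q N), a j ^ 2 := by
      induction N with
      | zero => simp [q0]
      | succ N ih => rw [sum_range_succ, ih, hA, sum_range_add_sum_Ico _ (qlt N).le]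
    rw [this]; exact hZ _
  have As : Summable A := summable_of_sum_range_le A0 AZ
  have Sq : ∀ s, S (q s) ≤ 4 * (2 + Z) * r ^ s := by
    intro s
    induction s with
    | zero => rw [q0, hS]; simp; positivity
    | succ s ih =>
      obtain ⟨m, hm⟩ : ∃ m, q (s + 1) = m + 1 := ⟨q (s + 1) - 1, by have := qlt s; omega⟩
      have h2 := Nat.find_min (ex s (q s)) (m := m) (by rw [← qs]; omega)
      push Not at h2
      have h3 : S (m + 1) = S m + a m := by rw [hS, hS, sum_range_succ]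
      have h4 : 1 ≤ r ^ s := one_le_pow₀ (by linarith)
      rw [hm, h3, pow_succ]
      rw [pow_succ] at h2
      have h5 := hB m
      have h6 : (1 + Z) ≤ (1 + Z) * r ^ s := le_mul_of_one_le_right (by linarith) h4
      have h7 : r ≤ 3 / 2 := by nlinarith
      have h8 : 0 ≤ r ^ s * (4 * (2 + Z) * r - 4 * (2 + Z) - r - (1 + Z)) :=
        mul_nonneg (by linarith) (by nlinarith)
      nlinarith [h2.1]
  refine ⟨q, q0, qm, ?_, ?_⟩
  · refine Summable.of_nonneg_of_le (fun s => ?_) (fun s => ?_)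
      (As.add ((summable_nat_add_iff 1).2 summable_geometric_two))
    · have : (q s : ℝ) < q (s + 1) := by exact_mod_cast qlt s
      exact div_nonneg (by positivity) (by linarith)
    · have hd : (0 : ℝ) < (q (s + 1) : ℝ) - q s := by
        have : (q s : ℝ) < q (s + 1) := by exact_mod_cast qlt s
        linarith
      rw [div_le_iff₀ hd]
      have h2 := Nat.find_spec (ex s (q s))
      rw [← qs] at h2
      rcases h2 with h2 | h2
      · have h3 : S (q (s + 1)) - S (q s) = ∑ k ∈ Ico (q s) (q (s + 1)), a k := by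
          rw [hS, hS, sum_Ico_eq_sub _ (qlt s).le]
        have h4 := sq_sum_le_card_mul_sum_sq (s := Ico (q s) (q (s + 1))) (f := a)
        rw [← h3, ← hA, Nat.card_Ico, Nat.cast_sub (qlt s).le] at h4
        have h5 : (r ^ (s + 1)) ^ 2 ≤ (S (q (s + 1)) - S (q s)) ^ 2 :=
          pow_le_pow_left₀ (by positivity) (by linarith) 2
        rw [hrp] at h5
        have : 0 ≤ (1 / 2 : ℝ) ^ (s + 1) * ((q (s + 1) : ℝ) - q s) := by positivity
        nlinarith
      · have h3 : (4 : ℝ) ^ (s + 1) ≤ (q (s + 1) : ℝ) - q s := by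
          have : ((q s + 4 ^ (s + 1) : ℕ) : ℝ) ≤ q (s + 1) := by exact_mod_cast h2
          push_cast at this; linarith
        have h4 : (2 : ℝ) ^ (s + 1) = (1 / 2) ^ (s + 1) * 4 ^ (s + 1) := by
          rw [← mul_pow]; norm_num
        have h5 : (1 / 2 : ℝ) ^ (s + 1) * 4 ^ (s + 1) ≤ (1 / 2) ^ (s + 1) * ((q (s + 1) : ℝ) - q s) :=
          mul_le_mul_of_nonneg_left h3 (by positivity)
        have := mul_nonneg (A0 s) hd.le
        nlinarith
  · obtain ⟨K, hK0, hK⟩ : ∃ K : ℝ, 0 ≤ K ∧ ∀ s k, k < q (s + 1) → n0 ≤ k →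
        τ k ^ 2 ≤ K * 2 ^ (s + 1) * a k ^ 2 := by
      refine ⟨((1 + 4 * (2 + Z)) / δ) ^ 2, sq_nonneg _, fun s k hk hk0 => ?_⟩
      have h2 := h k hk0
      rw [← hS] at h2
      have h3 : S (k + 1) ≤ 4 * (2 + Z) * r ^ (s + 1) := (Sm hk).trans (Sq _)
      have h4 : 1 ≤ r ^ (s + 1) := one_le_pow₀ (by linarith)
      have h5 : τ k ≤ (1 + 4 * (2 + Z)) / δ * r ^ (s + 1) * a k := by
        rw [div_mul_eq_mul_div, div_mul_eq_mul_div, le_div_iff₀ hδ]
        have := mul_le_mul_of_nonneg_left (show 1 + S (k + 1) ≤ (1 + 4 * (2 + Z)) * r ^ (s + 1) by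
          linarith) (ha k)
        linarith
      have h6 := pow_le_pow_left₀ (h0 k) h5 2
      rwa [mul_pow, mul_pow, hrp] at h6
    obtain ⟨Y, hY⟩ : ∃ Y : ℕ → ℝ, ∀ n, Y n = ∑ k ∈ range n, if n0 ≤ k then τ k ^ 2 else 0 :=
      ⟨_, fun _ => rfl⟩
    have Y0 : ∀ n, 0 ≤ Y n := fun n => by
      rw [hY]; exact sum_nonneg fun _ _ => by split_ifs <;> positivity
    have Y1 : ∀ n, ∑ k ∈ range n, τ k ^ 2 ≤ n0 + Y n := by
      intro n
      have h2 : ∑ k ∈ range n, τ k ^ 2 ≤ ∑ k ∈ range n, ((if k ∈ range n0 then (1 : ℝ) else 0) +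
          if n0 ≤ k then τ k ^ 2 else 0) := by
        refine sum_le_sum fun k _ => ?_
        by_cases hk : n0 ≤ k
        · simp [hk, not_lt.2 hk]
        · simp only [hk, mem_range, not_le.1 hk, if_true, if_false, add_zero]
          nlinarith [h0 k, h1 k]
      rw [sum_add_distrib, ← hY, sum_ite_mem] at h2
      have h3 : ∑ k ∈ range n ∩ range n0, (1 : ℝ) ≤ n0 := by
        rw [sum_const, nsmul_eq_mul, mul_one]
        exact_mod_cast (card_le_card inter_subset_right).trans (card_range _).le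
      linarith
    have Y2 : ∀ s, Y (q (s + 1)) ≤ Y (q s) + K * 2 ^ (s + 1) * A s := by
      intro s
      rw [hY, hY, ← sum_range_add_sum_Ico _ (qlt s).le, hA, mul_sum]
      gcongr with k hk
      split_ifs with h2
      · exact hK s k (mem_Ico.1 hk).2 h2
      · positivity
    have Y3 : ∀ N, ∑ s ∈ range N, (1 / 2 : ℝ) ^ (s + 1) * Y (q (s + 1)) + (1 / 2) ^ N * Y (q N) ≤
        2 * K * ∑ s ∈ range N, A s := by
      intro N
      induction N with
      | zero => simp [q0, hY]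
      | succ N ih =>
        rw [sum_range_succ, sum_range_succ]
        have h2 := mul_le_mul_of_nonneg_left (Y2 N) (show (0 : ℝ) ≤ (1 / 2) ^ (N + 1) by positivity)
        have h3 : (1 / 2 : ℝ) ^ (N + 1) * (K * 2 ^ (N + 1) * A N) = K * A N := by
          have : (1 / 2 : ℝ) ^ (N + 1) * 2 ^ (N + 1) = 1 := by rw [← mul_pow]; norm_num
          linear_combination (K * A N) * this
        rw [mul_add, h3] at h2
        rw [pow_succ] at h2 ⊢
        linarith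
    have Y4 : Summable fun s => (1 / 2 : ℝ) ^ (s + 1) * Y (q (s + 1)) := by
      refine summable_of_sum_range_le (c := 2 * K * Z) (fun s => mul_nonneg (by positivity) (Y0 _))
        fun N => ?_
      have h2 := Y3 N
      have h3 : 0 ≤ (1 / 2 : ℝ) ^ N * Y (q N) := mul_nonneg (by positivity) (Y0 _)
      have h4 := mul_le_mul_of_nonneg_left (AZ N) (show 0 ≤ 2 * K by positivity)
      linarith
    refine Summable.of_nonneg_of_le (fun s => mul_nonneg (by positivity)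
      (sum_nonneg fun _ _ => sq_nonneg _)) (fun s => ?_)
      ((((summable_nat_add_iff 1).2 summable_geometric_two).mul_right (n0 : ℝ)).add Y4)
    rw [← mul_add]
    exact mul_le_mul_of_nonneg_left (Y1 _) (by positivity)

variable {H : Type*} [NormedAddCommGroup H] [InnerProductSpace ℝ H]

/-- one admissible step of the algorithm -/
def St (D : Set H) (t : ℝ) (f f' : H) : Prop :=
  ∃ φ ∈ D, (∀ g ∈ D, t * |⟪f, g⟫_ℝ| ≤ |⟪f, φ⟫_ℝ|) ∧ f' = f - ⟪f, φ⟫_ℝ • φ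

theorem conv (D : Set H) (hD : ∀ g ∈ D, ‖g‖ = 1) (hd : Dense (Submodule.span ℝ D : Set H))
    (τ : ℕ → ℝ) (h0 : ∀ k, 0 ≤ τ k) (h1 : ∀ k, τ k ≤ 1) (hV : ¬ V τ) (f : ℕ → H)
    (hf : ∀ m, St D (τ m) (f m) (f (m + 1))) : Tendsto f atTop (𝓝 0) := by
  choose φ hφ hle hst using hf
  obtain ⟨a, ha⟩ : ∃ a : ℕ → ℝ, ∀ m, a m = |⟪f m, φ m⟫_ℝ| := ⟨_, fun _ => rfl⟩
  have a0 : ∀ m, 0 ≤ a m := fun m => by rw [ha]; exact abs_nonneg _
  have hn : ∀ m, ‖f (m + 1)‖ ^ 2 = ‖f m‖ ^ 2 - a m ^ 2 := by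
    intro m
    rw [hst, norm_sub_sq_real, inner_smul_right, norm_smul, hD _ (hφ m), ha, sq_abs,
      Real.norm_eq_abs, mul_one, sq_abs]
    ring
  have hsum : ∀ m, ∑ j ∈ range m, a j ^ 2 = ‖f 0‖ ^ 2 - ‖f m‖ ^ 2 := by
    intro m
    induction m with
    | zero => simp
    | succ m ih => rw [sum_range_succ, ih, hn]; ring
  have hs : Summable fun k => a k ^ 2 := summable_of_sum_range_le (c := ‖f 0‖ ^ 2)
    (fun _ => sq_nonneg _) fun m => by rw [hsum]; linarith [sq_nonneg ‖f m‖]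
  have anti : Antitone fun m => ‖f m‖ ^ 2 := antitone_nat_of_succ_le fun m => by
    simp only [hn]; linarith [sq_nonneg (a m)]
  have key : ∀ ε : ℝ, 0 < ε → ∃ m, ‖f m‖ ^ 2 ≤ ε * ‖f 0‖ + ε := by
    intro ε hε
    obtain ⟨g, hg, hg'⟩ := Metric.mem_closure_iff.1 (hd (f 0)) ε hε
    obtain ⟨C, hC0, hC⟩ : ∃ C : ℝ, 0 ≤ C ∧ ∀ (w : H) (M : ℝ), 0 ≤ M →
        (∀ d ∈ D, |⟪w, d⟫_ℝ| ≤ M) → |⟪w, g⟫_ℝ| ≤ C * M := by
      clear hg'
      induction hg using Submodule.span_induction with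
      | mem x hx => exact ⟨1, zero_le_one, fun w M _ h => by simpa using h x hx⟩
      | zero => exact ⟨0, le_rfl, fun w M _ _ => by simp⟩
      | add x y _ _ hx hy =>
        obtain ⟨C1, c1, hx⟩ := hx
        obtain ⟨C2, c2, hy⟩ := hy
        refine ⟨C1 + C2, by positivity, fun w M hM h => ?_⟩
        rw [inner_add_right]
        have := abs_add_le ⟪w, x⟫_ℝ ⟪w, y⟫_ℝ
        have := hx w M hM h
        have := hy w M hM h
        linarith
      | smul c x _ hx =>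
        obtain ⟨C1, c1, hx⟩ := hx
        refine ⟨|c| * C1, by positivity, fun w M hM h => ?_⟩
        rw [inner_smul_right, abs_mul, mul_assoc]
        exact mul_le_mul_of_nonneg_left (hx w M hM h) (abs_nonneg _)
    obtain ⟨δ, hδ, hδ'⟩ : ∃ δ : ℝ, 0 < δ ∧ (C + 1) * δ = ε :=
      ⟨ε / (C + 1), by positivity, by field_simp⟩
    obtain ⟨m, hm⟩ : ∃ m, a m * (1 + ∑ j ∈ range (m + 1), a j) < δ * τ m := by
      by_contra hc
      push Not at hc
      exact hV (seq_V τ a h0 h1 a0 hs δ hδ 0 fun n _ => hc n)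
    have S0 : 0 ≤ ∑ j ∈ range m, a j := sum_nonneg fun _ _ => a0 _
    rw [sum_range_succ] at hm
    have hτ : 0 < τ m := by
      by_contra hc
      have : τ m = 0 := le_antisymm (not_lt.1 hc) (h0 m)
      rw [this] at hm
      have := mul_nonneg (a0 m) (show 0 ≤ 1 + (∑ j ∈ range m, a j + a m) by linarith [a0 m])
      linarith
    obtain ⟨M, hM⟩ : ∃ M, τ m * M = a m := ⟨a m / τ m, by field_simp⟩
    have M0 : 0 ≤ M := by
      by_contra hc
      nlinarith [a0 m]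
    have hMD : ∀ d ∈ D, |⟪f m, d⟫_ℝ| ≤ M := fun d hd => by
      have := hle m d hd
      rw [← ha, ← hM] at this
      exact le_of_mul_le_mul_left this hτ
    have hM1 : M * (1 + ∑ j ∈ range m, a j) ≤ δ := by
      refine le_of_mul_le_mul_left ?_ hτ
      rw [← mul_assoc, hM]
      nlinarith [a0 m]
    have h2 : ∀ n, |⟪f m, f 0 - f n⟫_ℝ| ≤ M * ∑ j ∈ range n, a j := by
      intro n
      induction n with
      | zero => simp
      | succ n ih =>
        have e : f 0 - f (n + 1) = (f 0 - f n) + ⟪f n, φ n⟫_ℝ • φ n := by rw [hst n]; abel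
        rw [e, inner_add_right, inner_smul_right, sum_range_succ]
        have h3 := abs_add_le ⟪f m, f 0 - f n⟫_ℝ (⟪f n, φ n⟫_ℝ * ⟪f m, φ n⟫_ℝ)
        rw [abs_mul, ← ha] at h3
        have h4 := mul_le_mul_of_nonneg_left (hMD _ (hφ n)) (a0 n)
        nlinarith
    refine ⟨m, ?_⟩
    have e : ‖f m‖ ^ 2 = ⟪f m, f 0 - g⟫_ℝ + ⟪f m, g⟫_ℝ - ⟪f m, f 0 - f m⟫_ℝ := by
      rw [inner_sub_right, inner_sub_right, real_inner_self_eq_norm_sq]; ring
    have h3 := (abs_le.1 (h2 m)).1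
    have h4 := (abs_le.1 (hC (f m) M M0 hMD)).2
    have h5 := real_inner_le_norm (f m) (f 0 - g)
    have h6 : ‖f m‖ ≤ ‖f 0‖ := abs_le_of_sq_le_sq' (anti (Nat.zero_le m)) (norm_nonneg _) |>.2
    rw [dist_eq_norm] at hg'
    have h7 : ‖f m‖ * ‖f 0 - g‖ ≤ ‖f 0‖ * ε := mul_le_mul h6 hg'.le (norm_nonneg _) (norm_nonneg _)
    have h8 : M ≤ δ := by nlinarith
    have h9 : C * M ≤ C * δ := mul_le_mul_of_nonneg_left h8 hC0
    nlinarith
  rw [tendsto_zero_iff_norm_tendsto_zero, Metric.tendsto_atTop]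
  intro ε hε
  obtain ⟨m, hm⟩ := key (ε ^ 2 / (2 * (‖f 0‖ + 1))) (by positivity)
  refine ⟨m, fun n hn => ?_⟩
  rw [Real.dist_eq, sub_zero, abs_norm]
  have h2 : ‖f n‖ ^ 2 ≤ ‖f m‖ ^ 2 := anti hn
  have e : ε ^ 2 / (2 * (‖f 0‖ + 1)) * ‖f 0‖ + ε ^ 2 / (2 * (‖f 0‖ + 1)) = ε ^ 2 / 2 := by
    field_simp
  rw [e] at hm
  by_contra hc
  push Not at hc
  nlinarith

end Pool.Agent.H.MP_8ec86e_an
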