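import Mathlib
import Pool.Agent.H.MP_8ec86e_an.A

set_option autoImplicit false

namespace Pool.Agent.H.MP_8ec86e_an

open Filter Topology Finset
open scoped InnerProductSpace

variable {E H : Type*} [NormedAddCommGroup E] [InnerProductSpace ℝ E]
  [NormedAddCommGroup H] [InnerProductSpace ℝ H]

structure Ctx (E H : Type*) [NormedAddCommGroup E] [InnerProductSpace ℝ E]
    [NormedAddCommGroup H] [InnerProductSpace ℝ H] where
  e : ℕ → E
  T : E → E → H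
  he : Orthonormal ℝ e
  hT : ∀ u v u' v', ⟪T u v, T u' v'⟫_ℝ = ⟪u, u'⟫_ℝ * ⟪v, v'⟫_ℝ

namespace Ctx

variable (c : Ctx E H)

def D : Set H := {g | ∃ u v, ‖u‖ = 1 ∧ ‖v‖ = 1 ∧ g = c.T u v}

def ε (i : ℕ) : H := c.T (c.e i) (c.e i)

noncomputable def dg (x : ℕ →₀ ℝ) : H := Finsupp.linearCombination ℝ c.ε x

theorem ee (i j : ℕ) : ⟪c.e i, c.e j⟫_ℝ = if i = j then 1 else 0 := by
  have := orthonormal_iff_ite.1 c.he i j
  simpa using this

theorem normD {g : H} (hg : g ∈ c.D) : ‖g‖ = 1 := by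
  obtain ⟨u, v, hu, hv, rfl⟩ := hg
  have := c.hT u v u v
  rw [real_inner_self_eq_norm_sq, real_inner_self_eq_norm_sq, real_inner_self_eq_norm_sq, hu,
    hv] at this
  have h := norm_nonneg (c.T u v)
  nlinarith

theorem dg_inner (x : ℕ →₀ ℝ) (u v : E) :
    ⟪c.dg x, c.T u v⟫_ℝ = ∑ k ∈ x.support, x k * (⟪c.e k, u⟫_ℝ * ⟪c.e k, v⟫_ℝ) := by
  rw [dg, Finsupp.linearCombination_apply, Finsupp.sum, sum_inner]
  refine sum_congr rfl fun k _ => ?_
  rw [real_inner_smul_left, ε, c.hT]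

theorem op (x : ℕ →₀ ℝ) (M : ℝ) (hM : ∀ k, |x k| ≤ M) {g : H} (hg : g ∈ c.D) :
    |⟪c.dg x, g⟫_ℝ| ≤ M := by
  obtain ⟨u, v, hu, hv, rfl⟩ := hg
  have M0 : 0 ≤ M := (abs_nonneg _).trans (hM 0)
  rw [dg_inner]
  have h1 := c.he.sum_inner_products_le (s := x.support) u
  have h2 := c.he.sum_inner_products_le (s := x.support) v
  rw [hu] at h1
  rw [hv] at h2
  calc _ ≤ ∑ k ∈ x.support, |x k * (⟪c.e k, u⟫_ℝ * ⟪c.e k, v⟫_ℝ)| := abs_sum_le_sum_abs _ _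
    _ ≤ ∑ k ∈ x.support, M / 2 * (‖⟪c.e k, u⟫_ℝ‖ ^ 2 + ‖⟪c.e k, v⟫_ℝ‖ ^ 2) := by
      refine sum_le_sum fun k _ => ?_
      rw [abs_mul, abs_mul, Real.norm_eq_abs, Real.norm_eq_abs]
      have h3 := mul_le_mul_of_nonneg_right (hM k)
        (mul_nonneg (abs_nonneg ⟪c.e k, u⟫_ℝ) (abs_nonneg ⟪c.e k, v⟫_ℝ))
      have h4 := mul_nonneg M0 (sq_nonneg (|⟪c.e k, u⟫_ℝ| - |⟪c.e k, v⟫_ℝ|))
      nlinarith
    _ ≤ M := by
      rw [← mul_sum, sum_add_distrib]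
      nlinarith

theorem dg_ee (x : ℕ →₀ ℝ) (i j : ℕ) (p q p' q' : ℝ) (hij : i ≠ j) :
    ⟪c.dg x, c.T (p • c.e i + q • c.e j) (p' • c.e i + q' • c.e j)⟫_ℝ =
      p * p' * x i + q * q' * x j := by
  classical
  rw [dg_inner]
  have : ∀ k, x k * (⟪c.e k, p • c.e i + q • c.e j⟫_ℝ * ⟪c.e k, p' • c.e i + q' • c.e j⟫_ℝ) =
      (if i = k then p * p' * x k else 0) + (if j = k then q * q' * x k else 0) := by
    intro k
    simp only [inner_add_right, real_inner_smul_right, ee]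
    by_cases h1 : k = i
    · subst h1; simp [hij, hij.symm]; ring
    · by_cases h2 : k = j
      · subst h2; simp [hij, hij.symm]; ring
      · simp [h1, h2, Ne.symm h1, Ne.symm h2]
  simp only [this, sum_add_distrib, sum_ite_eq, Finsupp.mem_support_iff]
  congr 1 <;> split_ifs with h <;> simp_all

theorem norm2 (i j : ℕ) (p q : ℝ) (hij : i ≠ j) (h : p ^ 2 + q ^ 2 = 1) :
    ‖p • c.e i + q • c.e j‖ = 1 := by
  have : ‖p • c.e i + q • c.e j‖ ^ 2 = 1 := by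
    rw [← real_inner_self_eq_norm_sq]
    simp only [inner_add_right, inner_add_left, real_inner_smul_right, real_inner_smul_left, ee]
    simp [hij, hij.symm]
    linarith
  have h := norm_nonneg (p • c.e i + q • c.e j)
  nlinarith

theorem en (x : ℕ →₀ ℝ) : ‖c.dg x‖ ^ 2 = x.sum fun _ y => y ^ 2 := by
  have ho : Orthonormal ℝ c.ε := by
    rw [orthonormal_iff_ite]
    intro i j
    rw [ε, ε, c.hT, ee]
    split_ifs <;> simp
  rw [← real_inner_self_eq_norm_sq, dg, ho.inner_finsupp_eq_sum_left]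
  simp [Finsupp.sum, sq]

theorem kill (x : ℕ →₀ ℝ) (i : ℕ) (hx : ∀ k, |x k| ≤ x i) (t : ℝ) (t1 : t ≤ 1) :
    St c.D t (c.dg x) (c.dg (x.erase i)) := by
  have h1 : ⟪c.dg x, c.ε i⟫_ℝ = x i := by
    have := c.dg_ee x i (i + 1) 1 0 1 0 (by omega)
    simpa [ε] using this
  refine ⟨c.ε i, ⟨_, _, c.he.1 i, c.he.1 i, rfl⟩, fun g hg => ?_, ?_⟩
  · rw [h1]
    have h2 := c.op x _ hx hg
    have h3 := le_abs_self (x i)
    nlinarith [abs_nonneg ⟪c.dg x, g⟫_ℝ]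
  · rw [h1, eq_sub_iff_add_eq, dg, dg]
    conv_rhs => rw [← Finsupp.erase_add_single i x]
    simp

/-- two admissible steps between diagonal elements -/
def DS (t1 t2 : ℝ) (x x' : ℕ →₀ ℝ) : Prop :=
  ∃ w, St c.D t1 (c.dg x) w ∧ St c.D t2 w (c.dg x')

theorem rot (x : ℕ →₀ ℝ) (i j : ℕ) (hij : i ≠ j) (α β P M t1 t2 : ℝ) (hab : α ^ 2 + β ^ 2 = 1)
    (hP : P = α * x i - β * x j) (hM : ∀ k, |x k| ≤ M) (a1 : 0 ≤ t1) (a2 : 0 ≤ t2)
    (b2 : t2 ≤ 1 / 2) (c1 : 3 * t1 * M ≤ P) (c2 : 3 * t2 * M ≤ P) :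
    c.DS t1 t2 x (x - Finsupp.single i (P * α) + Finsupp.single j (P * β)) := by
  obtain ⟨s, s0, hs⟩ : ∃ s : ℝ, 0 < s ∧ s ^ 2 = 1 / 2 :=
    ⟨√(1 / 2), by positivity, Real.sq_sqrt (by norm_num)⟩
  have s1 : 7 / 10 ≤ s := by nlinarith
  have M0 : 0 ≤ M := (abs_nonneg _).trans (hM 0)
  have P0 : 0 ≤ P := le_trans (by positivity) c1
  set φ1 := c.T (s • c.e i + s • c.e j) (α • c.e i + (-β) • c.e j) with hφ1
  set φ2 := c.T (s • c.e i + (-s) • c.e j) (α • c.e i + β • c.e j) with hφ2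
  have m1 : φ1 ∈ c.D := ⟨_, _, c.norm2 i j _ _ hij (by linarith),
    c.norm2 i j _ _ hij (by linarith), rfl⟩
  have m2 : φ2 ∈ c.D := ⟨_, _, c.norm2 i j _ _ hij (by linarith), c.norm2 i j _ _ hij hab, rfl⟩
  have i1 : ⟪c.dg x, φ1⟫_ℝ = s * P := by rw [hφ1, c.dg_ee _ _ _ _ _ _ _ hij, hP]; ring
  have i2 : ⟪c.dg x, φ2⟫_ℝ = s * P := by rw [hφ2, c.dg_ee _ _ _ _ _ _ _ hij, hP]; ring
  have i3 : ⟪φ1, φ2⟫_ℝ = 0 := by
    rw [hφ1, hφ2, c.hT]
    simp only [inner_add_right, inner_add_left, real_inner_smul_right, real_inner_smul_left, ee]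
    simp [hij, hij.symm]
  have i4 : φ1 + φ2 = (2 * s * α) • c.ε i - (2 * s * β) • c.ε j := by
    rw [← sub_eq_zero, ← inner_self_eq_zero (𝕜 := ℝ), hφ1, hφ2, ε, ε]
    simp only [inner_add_right, inner_add_left, inner_sub_left, inner_sub_right,
      real_inner_smul_right, real_inner_smul_left, c.hT, ee]
    simp only [hij, hij.symm, if_true, if_false]
    ring
  have i5 : ⟪c.dg x - (s * P) • φ1, φ2⟫_ℝ = s * P := by
    rw [inner_sub_left, real_inner_smul_left, i2, i3]; ring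
  have sP : 0 ≤ s * P := by positivity
  refine ⟨c.dg x - (s * P) • φ1, ⟨φ1, m1, fun g hg => ?_, by rw [i1]⟩,
    ⟨φ2, m2, fun g hg => ?_, ?_⟩⟩
  · rw [i1, abs_of_nonneg sP]
    have := mul_le_mul_of_nonneg_left (c.op x M hM hg) a1
    nlinarith
  · rw [i5, abs_of_nonneg sP, inner_sub_left, real_inner_smul_left]
    have h1 := c.op x M hM hg
    have h2 := abs_real_inner_le_norm φ1 g
    rw [c.normD m1, c.normD hg] at h2
    have h3 := abs_sub ⟪c.dg x, g⟫_ℝ (s * P * ⟪φ1, g⟫_ℝ)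
    rw [abs_mul, abs_of_nonneg sP] at h3
    have h4 : |⟪c.dg x, g⟫_ℝ - s * P * ⟪φ1, g⟫_ℝ| ≤ M + s * P := by nlinarith
    have h5 := mul_le_mul_of_nonneg_left h4 a2
    nlinarith
  · rw [i5, sub_sub, ← smul_add, i4]
    simp only [dg, map_add, map_sub, Finsupp.linearCombination_single, smul_sub, smul_smul]
    have e1 : s * P * (2 * s * α) = P * α := by linear_combination (2 * P * α) * hs
    have e2 : s * P * (2 * s * β) = P * β := by linear_combination (2 * P * β) * hs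
    rw [e1, e2]; abel

end Ctx

theorem two_pt (ψ : ℝ → ℝ) (h0 : ψ 0 = 0) (x x' : ℕ →₀ ℝ) (i j : ℕ) (hij : i ≠ j)
    (h : ∀ k, k ≠ i → k ≠ j → x' k = x k) :
    (x'.sum fun _ y => ψ y) = (x.sum fun _ y => ψ y) - ψ (x i) - ψ (x j) + ψ (x' i) + ψ (x' j) := by
  classical
  set s := x.support ∪ x'.support ∪ {i, j} with hs
  rw [Finsupp.sum_of_support_subset x (s := s) (by intro k hk; simp_all) _ (fun _ _ => h0),
    Finsupp.sum_of_support_subset x' (s := s) (by intro k hk; simp_all) _ (fun _ _ => h0)]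
  have : ∑ k ∈ ({i, j} : Finset ℕ), (ψ (x' k) - ψ (x k)) = ∑ k ∈ s, (ψ (x' k) - ψ (x k)) := by
    refine sum_subset subset_union_right fun k _ hk => ?_
    simp only [mem_insert, mem_singleton, not_or] at hk
    rw [h k hk.1 hk.2, sub_self]
  rw [sum_pair hij, sum_sub_distrib] at this
  linarith

noncomputable def En (x : ℕ →₀ ℝ) : ℝ := x.sum fun _ y => y ^ 2

noncomputable def ψ (b y : ℝ) : ℝ := if b < y then y ^ 2 else 0

noncomputable def Bg (b : ℝ) (x : ℕ →₀ ℝ) : ℝ := x.sum fun _ y => ψ b y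

def Hyp (b : ℝ) (x : ℕ →₀ ℝ) (W : ℝ) : Prop :=
  (∀ k, x k ≤ b) ∨ ∃ j, x j ≤ b / 4 ∧ Bg b x + x j ^ 2 - b / 4 * x j ≤ W

theorem ψ0 (b : ℝ) : ψ b 0 = 0 := by simp [ψ]
theorem ψ_nonneg (b y : ℝ) : 0 ≤ ψ b y := by unfold ψ; split_ifs <;> positivity
theorem ψ_le (b y : ℝ) : ψ b y ≤ y ^ 2 := by unfold ψ; split_ifs <;> [exact le_rfl; positivity]

theorem fresh (x : ℕ →₀ ℝ) (i : ℕ) : ∃ j, j ≠ i ∧ x j = 0 := by
  obtain ⟨j, hj⟩ := Infinite.exists_notMem_finset (insert i x.support)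
  simp only [mem_insert, Finsupp.mem_support_iff, not_or, not_not] at hj
  exact ⟨j, hj⟩

theorem exmax (x : ℕ →₀ ℝ) (hx : ∀ k, 0 ≤ x k) : ∃ i, ∀ k, x k ≤ x i := by
  obtain ⟨i, _, hi⟩ := exists_max_image (insert 0 x.support) x (insert_nonempty _ _)
  refine ⟨i, fun k => ?_⟩
  by_cases hk : x k = 0
  · rw [hk]; exact hx i
  · exact hi k (by simp [hk])

theorem Hyp.of_Bg {b W : ℝ} (hb : 0 < b) {x : ℕ →₀ ℝ} (h : Bg b x ≤ W) : Hyp b x W := by
  obtain ⟨j, _, hj⟩ := fresh x 0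
  exact Or.inr ⟨j, by rw [hj]; positivity, by rw [hj]; simpa using h⟩

theorem Bg_le (b : ℝ) (x : ℕ →₀ ℝ) : Bg b x ≤ En x := sum_le_sum fun _ _ => ψ_le _ _

theorem Hyp.done {b W : ℝ} (hb : 0 < b) {x : ℕ →₀ ℝ} (h : Hyp b x W) (hW : W ≤ 0) (k : ℕ) :
    x k ≤ b := by
  rcases h with h | ⟨j, h1, h2⟩
  · exact h k
  by_contra hk
  push Not at hk
  have h3 : ψ b (x k) ≤ Bg b x := single_le_sum (f := fun k => ψ b (x k))
    (fun _ _ => ψ_nonneg _ _) (Finsupp.mem_support_iff.2 (by linarith))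
  rw [ψ, if_pos hk] at h3
  nlinarith [sq_nonneg (x j - b / 8)]

theorem erase_sum (φ : ℝ → ℝ) (h0 : φ 0 = 0) (x : ℕ →₀ ℝ) (i : ℕ) :
    ((x.erase i).sum fun _ y => φ y) = (x.sum fun _ y => φ y) - φ (x i) := by
  rw [two_pt φ h0 x (x.erase i) i (i + 1) (by omega) (fun k hk _ => Finsupp.erase_ne hk),
    Finsupp.erase_same, Finsupp.erase_ne (by omega), h0]
  ring

theorem erase_le (x : ℕ →₀ ℝ) (hx : ∀ k, 0 ≤ x k) (i k : ℕ) :
    0 ≤ x.erase i k ∧ x.erase i k ≤ x k := by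
  by_cases h : k = i
  · subst h; simp [hx]
  · simp [Finsupp.erase_ne h, hx]

theorem num {b α β P p u v : ℝ} (hb : 0 < b) (α0 : 0 ≤ α) (β0 : 0 ≤ β) (hβ : α ^ 2 + β ^ 2 = 1)
    (hα : P = α * u - β * v) (hi : b < u) (h1 : v ≤ b / 4) (hv : 0 ≤ v) (P1 : P ≤ b / 4)
    (P0 : p ≤ P) (p0 : 0 ≤ p) :
    P * α ≤ b / 4 ∧ P * β ≤ b / 4 ∧ 0 ≤ P * α ∧ 4 / 5 * p ≤ P * β := by
  have β1 : β ≤ 1 := by nlinarith
  have α2 : α ≤ 1 / 2 := by
    by_contra hc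
    push Not at hc
    nlinarith [mul_le_mul_of_nonneg_right β1 hv]
  have β2 : 4 / 5 ≤ β := by nlinarith
  have PP : 0 ≤ P := p0.trans P0
  exact ⟨by nlinarith, by nlinarith, by positivity, by nlinarith⟩

theorem Ctx.phase (c : Ctx E H) {a b p t1 t2 W : ℝ} (hb : 0 < b) (hba : b ≤ a) (hab : a ≤ 2 * b)
    (p0 : 0 ≤ p) (p1 : p ≤ b / 8) (a1 : 0 ≤ t1) (b1 : t1 ≤ 1) (a2 : 0 ≤ t2) (b2 : t2 ≤ 1)
    (x : ℕ →₀ ℝ) (hx : ∀ k, 0 ≤ x k) (hxa : ∀ k, x k ≤ a) (hy : Hyp b x W) :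
    ∃ x', c.DS t1 t2 x x' ∧ (∀ k, 0 ≤ x' k) ∧ (∀ k, x' k ≤ a) ∧ Hyp b x' (W - b * p / 5) ∧
      En x - (5000 * a ^ 2 * (t1 ^ 2 + t2 ^ 2) + 2 * p ^ 2) ≤ En x' ∧ En x' ≤ En x := by
  by_cases ht : 1 / 48 < t1 ∨ 1 / 48 < t2
  · obtain ⟨i, hi⟩ := exmax x hx
    have e1 := erase_le x hx i
    obtain ⟨i', hi'⟩ := exmax (x.erase i) (fun k => (e1 k).1)
    have e2 := erase_le (x.erase i) (fun k => (e1 k).1) i'
    have n1 : En (x.erase i) = En x - x i ^ 2 := erase_sum (fun y => y ^ 2) (by simp) _ _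
    have n2 : En ((x.erase i).erase i') = En (x.erase i) - (x.erase i i') ^ 2 :=
      erase_sum (fun y => y ^ 2) (by simp) _ _
    refine ⟨(x.erase i).erase i', ⟨_, c.kill x i (fun k => by rw [abs_of_nonneg (hx k)]; exact hi k)
      t1 b1, c.kill _ i' (fun k => by rw [abs_of_nonneg (e1 k).1]; exact hi' k) t2 b2⟩,
      fun k => (e2 k).1, fun k => (e2 k).2.trans ((e1 k).2.trans (hxa k)), ?_, ?_, ?_⟩
    · by_cases hall : ∀ k, x k ≤ b
      · exact Or.inl fun k => (e2 k).2.trans ((e1 k).2.trans (hall k))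
      rcases hy with hy | ⟨j, h1, h2⟩
      · exact absurd hy hall
      push Not at hall
      obtain ⟨k, hk⟩ := hall
      have hbi : b < x i := hk.trans_le (hi k)
      refine Hyp.of_Bg hb ?_
      have m1 : Bg b (x.erase i) = Bg b x - ψ b (x i) := erase_sum (ψ b) (ψ0 b) _ _
      have m2 : Bg b ((x.erase i).erase i') = Bg b (x.erase i) - ψ b (x.erase i i') :=
        erase_sum (ψ b) (ψ0 b) _ _
      have m3 := ψ_nonneg b (x.erase i i')
      rw [ψ, if_pos hbi] at m1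
      nlinarith [sq_nonneg (x j - b / 8)]
    · have h1 : x i ^ 2 ≤ a ^ 2 := pow_le_pow_left₀ (hx i) (hxa i) 2
      have h2 : x.erase i i' ^ 2 ≤ a ^ 2 :=
        pow_le_pow_left₀ (e1 i').1 ((e1 i').2.trans (hxa i')) 2
      have h3 : 1 / 2500 ≤ t1 ^ 2 + t2 ^ 2 := by
        rcases ht with h | h <;> nlinarith [sq_nonneg t1, sq_nonneg t2]
      have h4 := mul_le_mul_of_nonneg_left h3 (sq_nonneg a)
      nlinarith [sq_nonneg p]
    · nlinarith [sq_nonneg (x i), sq_nonneg (x.erase i i')]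
  push Not at ht
  obtain ⟨t, ht1, ht2, ht3, ht4⟩ : ∃ t, t1 ≤ t ∧ t2 ≤ t ∧ t ≤ 1 / 48 ∧ t ^ 2 ≤ t1 ^ 2 + t2 ^ 2 := by
    rcases le_total t1 t2 with h | h
    · exact ⟨t2, h, le_rfl, ht.2, by nlinarith⟩
    · exact ⟨t1, le_rfl, h, ht.1, by nlinarith⟩
  have t0 : 0 ≤ t := a1.trans ht1
  have gen : ∀ (i j : ℕ) (α β P M : ℝ), i ≠ j → 0 ≤ α → 0 ≤ β → α ^ 2 + β ^ 2 = 1 →
      P = α * x i - β * x j → (∀ k, x k ≤ M) → 3 * t * M ≤ P → P ≤ 3 * t * a + p →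
      ∃ x', c.DS t1 t2 x x' ∧ (∀ k, k ≠ i → k ≠ j → x' k = x k) ∧ x' i = x i - P * α ∧
        x' j = x j + P * β ∧
        En x - (5000 * a ^ 2 * (t1 ^ 2 + t2 ^ 2) + 2 * p ^ 2) ≤ En x' ∧ En x' ≤ En x := by
    intro i j α β P M hij α0 β0 hαβ hP hM h1 h2
    have M0 : 0 ≤ M := (hx 0).trans (hM 0)
    have P0 : 0 ≤ P := le_trans (by positivity) h1
    have d := c.rot x i j hij α β P M t1 t2 hαβ hP (fun k => by rw [abs_of_nonneg (hx k)]; exact hM k)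
      a1 a2 (by linarith) (by nlinarith) (by nlinarith)
    set x' := x - Finsupp.single i (P * α) + Finsupp.single j (P * β) with hx'
    have e0 : ∀ k, k ≠ i → k ≠ j → x' k = x k := fun k h1 h2 => by
      simp [hx', Finsupp.single_eq_of_ne h1, Finsupp.single_eq_of_ne h2]
    have e1 : x' i = x i - P * α := by simp [hx', Finsupp.single_eq_of_ne hij]
    have e2 : x' j = x j + P * β := by simp [hx', Finsupp.single_eq_of_ne hij.symm]
    have e3 : En x' = En x - P ^ 2 := by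
      have := two_pt (fun y => y ^ 2) (by simp) x x' i j hij e0
      rw [e1, e2] at this
      unfold En
      rw [this]
      linear_combination P ^ 2 * hαβ + (2 * P) * hP
    have h3 : P ^ 2 ≤ (3 * t * a + p) ^ 2 := pow_le_pow_left₀ P0 h2 2
    have h4 := mul_le_mul_of_nonneg_left ht4 (sq_nonneg a)
    refine ⟨x', d, e0, e1, e2, ?_, ?_⟩
    · rw [e3]
      nlinarith [sq_nonneg (3 * t * a - p), mul_nonneg (sq_nonneg a) (sq_nonneg t)]
    · rw [e3]; nlinarith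
  by_cases hall : ∀ k, x k ≤ b
  · obtain ⟨i, hi⟩ := exmax x hx
    obtain ⟨j, hij, hj⟩ := fresh x i
    have h1 : 0 ≤ 1 - (3 * t) ^ 2 := by nlinarith
    have h2 : √(1 - (3 * t) ^ 2) ≤ 1 := Real.sqrt_le_one.2 (by linarith [sq_nonneg (3 * t)])
    obtain ⟨x', d, e0, e1, e2, e3, e4⟩ := gen i j (3 * t) (√(1 - (3 * t) ^ 2)) (3 * t * x i) (x i)
      hij.symm (by positivity) (Real.sqrt_nonneg _) (by rw [Real.sq_sqrt h1]; ring)
      (by rw [hj]; ring) hi le_rfl (by nlinarith [hxa i])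
    have hxi := hx i
    have k1 : ∀ k, 0 ≤ x' k ∧ x' k ≤ b := by
      intro k
      by_cases hki : k = i
      · rw [hki, e1]
        have := mul_nonneg hxi h1
        have := mul_nonneg hxi (sq_nonneg t)
        constructor <;> nlinarith [hall i]
      by_cases hkj : k = j
      · rw [hkj, e2, hj]
        have h3 : 3 * t * x i * √(1 - (3 * t) ^ 2) ≤ 3 * t * x i :=
          mul_le_of_le_one_right (by positivity) h2
        refine ⟨by positivity, ?_⟩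
        nlinarith [hall i]
      · rw [e0 k hki hkj]; exact ⟨hx k, hall k⟩
    exact ⟨x', d, fun k => (k1 k).1, fun k => (k1 k).2.trans hba, Or.inl fun k => (k1 k).2, e3, e4⟩
  rcases hy with hy | ⟨j, h1, h2⟩
  · exact absurd hy hall
  push Not at hall
  obtain ⟨i, hi⟩ := hall
  have hij : i ≠ j := by rintro rfl; linarith
  obtain ⟨P, hP⟩ : ∃ P, P = 3 * t * a + p := ⟨_, rfl⟩
  have P1 : P ≤ b / 4 := by
    have : t * a ≤ 1 / 48 * (2 * b) := mul_le_mul ht3 hab (by linarith) (by norm_num)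
    linarith
  have P0 : p ≤ P := by
    have : 0 ≤ t * a := mul_nonneg t0 (by linarith)
    linarith
  obtain ⟨α, ⟨α0, α1⟩, hα⟩ : P ∈ (fun α => α * x i - √(1 - α ^ 2) * x j) '' Set.Icc 0 1 := by
    refine intermediate_value_Icc zero_le_one (by fun_prop) ⟨?_, ?_⟩
    · simp only [zero_mul]; have := hx j; simp; linarith
    · simp; linarith
  have h3 : 0 ≤ 1 - α ^ 2 := sub_nonneg.2 (pow_le_one₀ α0 α1)
  obtain ⟨β, β0, hβ, hα'⟩ : ∃ β, 0 ≤ β ∧ α ^ 2 + β ^ 2 = 1 ∧ P = α * x i - β * x j :=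
    ⟨√(1 - α ^ 2), Real.sqrt_nonneg _, by rw [Real.sq_sqrt h3]; ring, hα.symm⟩
  have hxj := hx j
  have PP : 0 ≤ P := p0.trans P0
  obtain ⟨f1, f2, f3, f4⟩ := num hb α0 β0 hβ hα' hi h1 hxj P1 P0 p0
  obtain ⟨x', d, e0, e1, e2, e3, e4⟩ := gen i j α β P a hij α0 β0 hβ hα' hxa (by linarith) hP.le
  have k1 : ∀ k, 0 ≤ x' k ∧ x' k ≤ a := by
    intro k
    by_cases hki : k = i
    · rw [hki, e1]; constructor <;> linarith [hxa i]
    by_cases hkj : k = j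
    · rw [hkj, e2]; constructor <;> linarith
    · rw [e0 k hki hkj]; exact ⟨hx k, hxa k⟩
  refine ⟨x', d, fun k => (k1 k).1, fun k => (k1 k).2, ?_, e3, e4⟩
  have m1 : Bg b x' = Bg b x - ψ b (x i) - ψ b (x j) + ψ b (x' i) + ψ b (x' j) :=
    two_pt (ψ b) (ψ0 b) x x' i j hij e0
  have m2 : ψ b (x i) = x i ^ 2 := if_pos hi
  have m3 : ψ b (x j) = 0 := if_neg (by linarith)
  have m4 : ψ b (x' j) = 0 := if_neg (by rw [e2]; linarith)
  have m5 := ψ_le b (x' i)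
  have m6 : x' i ^ 2 + x' j ^ 2 = x i ^ 2 + x j ^ 2 - P ^ 2 := by
    rw [e1, e2]; linear_combination P ^ 2 * hβ + (2 * P) * hα'
  have m7 : Bg b x' + x' j ^ 2 - b / 4 * x' j ≤ W - b * p / 5 := by
    have : b / 4 * (4 / 5 * p) ≤ b / 4 * (P * β) := mul_le_mul_of_nonneg_left f4 (by positivity)
    have e5 : b / 4 * x' j = b / 4 * x j + b / 4 * (P * β) := by rw [e2]; ring
    linarith [sq_nonneg P]
  by_cases hj : x' j ≤ b / 4
  · exact Or.inr ⟨j, hj, m7⟩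
  · refine Hyp.of_Bg hb ?_
    push Not at hj
    have := mul_nonneg (k1 j).1 (sub_nonneg.2 hj.le)
    have e6 : x' j * (x' j - b / 4) = x' j ^ 2 - b / 4 * x' j := by ring
    linarith

end Pool.Agent.H.MP_8ec86e_an
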