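import Mathlib
import Pool.Agent.H.MP_8ec86e_an.B

set_option autoImplicit false

namespace Pool.Agent.H.MP_8ec86e_an

open Filter Topology Finset
open scoped InnerProductSpace

variable {E H : Type*} [NormedAddCommGroup E] [InnerProductSpace ℝ E]
  [NormedAddCommGroup H] [InnerProductSpace ℝ H]

theorem Ctx.phases (c : Ctx E H) (τ : ℕ → ℝ) (h0 : ∀ k, 0 ≤ τ k) (h1 : ∀ k, τ k ≤ 1)
    (ρ : ℕ → ℕ) (ρ0 : ρ 0 = 0) (ρ1 : ∀ k, ρ k < ρ (k + 1)) (a b p : ℕ → ℝ)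
    (hab : ∀ k, a (k + 1) = b k) (hb : ∀ k, 0 < b k) (hba : ∀ k, b k ≤ a k)
    (hab2 : ∀ k, a k ≤ 2 * b k) (p0 : ∀ k, 0 ≤ p k) (p1 : ∀ k, p k ≤ b k / 8)
    (hend : ∀ k, a k ≤ b k ∨ 1 - ((ρ (k + 1) : ℝ) - ρ k) * (b k * p k / 5) ≤ 0)
    (C : ℕ → ℝ) (hC : ∀ k, 5000 * a k ^ 2 * ∑ m ∈ range (2 * ρ (k + 1)), τ m ^ 2 +
      ((ρ (k + 1) : ℝ) - ρ k) * (2 * p k ^ 2) ≤ C k)
    (hS : ∀ N, ∑ k ∈ range N, C k ≤ 1 / 2) (x0 : ℕ →₀ ℝ) (x1 : ∀ k, 0 ≤ x0 k)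
    (x2 : ∀ k, x0 k ≤ a 0) (x3 : En x0 = 1) :
    ∃ f : ℕ → H, (∀ m, St c.D (τ m) (f m) (f (m + 1))) ∧ ¬ Tendsto f atTop (𝓝 0) := by
  obtain ⟨Y, hY⟩ : ∃ Y : ℕ → ℝ, ∀ n, Y n = ∑ m ∈ range n, τ m ^ 2 := ⟨_, fun _ => rfl⟩
  have Ym : Monotone Y := monotone_nat_of_le_succ fun n => by
    rw [hY, hY, sum_range_succ]; linarith [sq_nonneg (τ n)]
  have Y0 : ∀ n, 0 ≤ Y n := fun n => by rw [hY]; exact sum_nonneg fun _ _ => sq_nonneg _
  simp only [← hY] at hC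
  let Inv : ℕ → (ℕ →₀ ℝ) → Prop := fun n x => (∀ i, 0 ≤ x i) ∧ En x ≤ 1 ∧
    ∃ k, ρ k ≤ n ∧ n < ρ (k + 1) ∧ (∀ i, x i ≤ a k) ∧
      Hyp (b k) x (1 - ((n : ℝ) - ρ k) * (b k * p k / 5)) ∧
      1 - ∑ j ∈ range k, C j - 5000 * a k ^ 2 * Y (2 * n) - ((n : ℝ) - ρ k) * (2 * p k ^ 2) ≤ En x
  have low : ∀ n x, Inv n x → 1 / 2 ≤ En x := by
    rintro n x ⟨_, _, k, k1, k2, _, _, k5⟩
    have e1 := hS (k + 1)
    rw [sum_range_succ] at e1
    have e2 := hC k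
    have e3 : 5000 * a k ^ 2 * Y (2 * n) ≤ 5000 * a k ^ 2 * Y (2 * ρ (k + 1)) :=
      mul_le_mul_of_nonneg_left (Ym (by omega)) (by positivity)
    have e4 : ((n : ℝ) - ρ k) * (2 * p k ^ 2) ≤ ((ρ (k + 1) : ℝ) - ρ k) * (2 * p k ^ 2) := by
      have : (n : ℝ) ≤ ρ (k + 1) := by exact_mod_cast k2.le
      exact mul_le_mul_of_nonneg_right (by linarith) (by positivity)
    linarith
  have start : Inv 0 x0 := by
    refine ⟨x1, x3.le, 0, ρ0.le, by simpa [ρ0] using ρ1 0, x2, ?_, ?_⟩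
    · refine Hyp.of_Bg (hb 0) ?_
      simpa [ρ0, x3] using Bg_le (b 0) x0
    · simp [ρ0, x3, hY]
  have step : ∀ n x, Inv n x → ∃ x', c.DS (τ (2 * n)) (τ (2 * n + 1)) x x' ∧ Inv (n + 1) x' := by
    rintro n x ⟨i1, i2, k, k1, k2, k3, k4, k5⟩
    obtain ⟨x', d, j1, j2, j3, j4, j5⟩ := c.phase (hb k) (hba k) (hab2 k) (p0 k) (p1 k) (h0 (2 * n))
      (h1 _) (h0 (2 * n + 1)) (h1 _) x i1 k3 k4
    have eY : Y (2 * (n + 1)) = Y (2 * n) + (τ (2 * n) ^ 2 + τ (2 * n + 1) ^ 2) := by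
      rw [hY, hY, show 2 * (n + 1) = 2 * n + 1 + 1 by ring, sum_range_succ, sum_range_succ]; ring
    have e1 : 1 - ((n : ℝ) - ρ k) * (b k * p k / 5) - b k * p k / 5 =
        1 - (((n + 1 : ℕ) : ℝ) - ρ k) * (b k * p k / 5) := by push_cast; ring
    rw [e1] at j3
    have e2 : 1 - ∑ j ∈ range k, C j - 5000 * a k ^ 2 * Y (2 * (n + 1)) -
        (((n + 1 : ℕ) : ℝ) - ρ k) * (2 * p k ^ 2) ≤ En x' := by
      rw [eY]; push_cast; linarith
    refine ⟨x', d, j1, j5.trans i2, ?_⟩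
    rcases (show n + 1 ≤ ρ (k + 1) from k2).lt_or_eq with h | h
    · exact ⟨k, by omega, h, j2, j3, e2⟩
    · rw [h] at j3 e2 ⊢
      refine ⟨k + 1, le_rfl, ρ1 _, fun i => ?_, Hyp.of_Bg (hb _) ?_, ?_⟩
      · rw [hab]
        rcases hend k with h3 | h3
        · exact (j2 i).trans h3
        · exact j3.done (hb k) h3 i
      · have := Bg_le (b (k + 1)) x'
        rw [sub_self, zero_mul]; linarith
      · have e3 : 0 ≤ 5000 * a (k + 1) ^ 2 * Y (2 * ρ (k + 1)) := mul_nonneg (by positivity) (Y0 _)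
        have := hC k
        rw [sub_self, zero_mul, sum_range_succ]; linarith
  choose! nx hnx using step
  obtain ⟨X, X0, Xs⟩ : ∃ X : ℕ → (ℕ →₀ ℝ), X 0 = x0 ∧ ∀ n, X (n + 1) = nx n (X n) :=
    ⟨fun n => Nat.rec x0 nx n, rfl, fun _ => rfl⟩
  have XI : ∀ n, Inv n (X n) := by
    intro n
    induction n with
    | zero => rw [X0]; exact start
    | succ n ih => rw [Xs]; exact (hnx n _ ih).2
  have XD : ∀ n, c.DS (τ (2 * n)) (τ (2 * n + 1)) (X n) (X (n + 1)) := fun n => by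
    rw [Xs]; exact (hnx n _ (XI n)).1
  choose w w1 w2 using XD
  refine ⟨fun m => if m % 2 = 0 then c.dg (X (m / 2)) else w (m / 2), fun m => ?_, fun ht => ?_⟩
  · obtain ⟨n, rfl | rfl⟩ := Nat.even_or_odd' m
    · have e1 : 2 * n % 2 = 0 := by omega
      have e2 : ¬ (2 * n + 1) % 2 = 0 := by omega
      have e3 : 2 * n / 2 = n := by omega
      have e4 : (2 * n + 1) / 2 = n := by omega
      simp only [e1, e2, e3, e4, if_true, if_false]
      exact w1 n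
    · have e1 : (2 * n + 1 + 1) % 2 = 0 := by omega
      have e2 : ¬ (2 * n + 1) % 2 = 0 := by omega
      have e3 : (2 * n + 1 + 1) / 2 = n + 1 := by omega
      have e4 : (2 * n + 1) / 2 = n := by omega
      simp only [e1, e2, e3, e4, if_true, if_false]
      exact w2 n
  · rw [tendsto_zero_iff_norm_tendsto_zero, Metric.tendsto_atTop] at ht
    obtain ⟨N, hN⟩ := ht (1 / 2) (by norm_num)
    have h2 := hN (2 * N) (by omega)
    have e1 : 2 * N % 2 = 0 := by omega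
    have e3 : 2 * N / 2 = N := by omega
    simp only [e1, e3, if_true, Real.dist_eq, sub_zero, abs_norm] at h2
    have h3 := low N _ (XI N)
    have h4 : ‖c.dg (X N)‖ ^ 2 = En (X N) := c.en _
    nlinarith [norm_nonneg (c.dg (X N))]

theorem Ctx.diverge (c : Ctx E H) (τ : ℕ → ℝ) (h0 : ∀ k, 0 ≤ τ k) (h1 : ∀ k, τ k ≤ 1)
    (hV : V τ) :
    ∃ f : ℕ → H, (∀ m, St c.D (τ m) (f m) (f (m + 1))) ∧ ¬ Tendsto f atTop (𝓝 0) := by
  obtain ⟨q, q0, qm, hg, hh⟩ := hV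
  obtain ⟨Y, hY⟩ : ∃ Y : ℕ → ℝ, ∀ n, Y n = ∑ m ∈ range n, τ m ^ 2 := ⟨_, fun _ => rfl⟩
  have Ym : Monotone Y := monotone_nat_of_le_succ fun n => by
    rw [hY, hY, sum_range_succ]; linarith [sq_nonneg (τ n)]
  have Y0 : ∀ n, 0 ≤ Y n := fun n => by rw [hY]; exact sum_nonneg fun _ _ => sq_nonneg _
  simp only [← hY] at hh
  obtain ⟨g, hg'⟩ : ∃ g : ℕ → ℝ, ∀ s, g s = (2 : ℝ) ^ (s + 1) / ((q (s + 1) : ℝ) - q s) :=
    ⟨_, fun _ => rfl⟩
  obtain ⟨h, hh'⟩ : ∃ h : ℕ → ℝ, ∀ s, h s = (1 / 2 : ℝ) ^ (s + 1) * Y (q (s + 1)) :=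
    ⟨_, fun _ => rfl⟩
  simp only [← hg'] at hg
  simp only [← hh'] at hh
  have dq : ∀ s, (0 : ℝ) < (q (s + 1) : ℝ) - q s := fun s => by
    have : (q s : ℝ) < q (s + 1) := by exact_mod_cast qm (Nat.lt_succ_self s)
    linarith
  have g0 : ∀ s, 0 < g s := fun s => by rw [hg']; exact div_pos (by positivity) (dq s)
  have h0' : ∀ s, 0 ≤ h s := fun s => by rw [hh']; exact mul_nonneg (by positivity) (Y0 _)
  have hs : Summable fun s => 10000 * h s + 200 * g s := (hh.mul_left _).add (hg.mul_left _)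
  obtain ⟨s1, hs1⟩ : ∃ s1, ∑' k, (10000 * h (k + s1) + 200 * g (k + s1)) < 1 / 2 :=
    ((tendsto_sum_nat_add fun s => 10000 * h s + 200 * g s).eventually
      (gt_mem_nhds (show (0 : ℝ) < 1 / 2 by norm_num))).exists
  have hS : ∀ N, ∑ k ∈ range N, (10000 * h (k + s1) + 200 * g (k + s1)) ≤ 1 / 2 := fun N =>
    (((summable_nat_add_iff s1).2 hs).sum_le_tsum _ fun k _ => by
      have := g0 (k + s1); have := h0' (k + s1); positivity).trans hs1.le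
  have gs : ∀ k, g (k + s1) ≤ 1 / 400 := by
    intro k
    have h2 := hS (k + 1)
    rw [sum_range_succ] at h2
    have : 0 ≤ ∑ k ∈ range k, (10000 * h (k + s1) + 200 * g (k + s1)) :=
      sum_nonneg fun k _ => by have := g0 (k + s1); have := h0' (k + s1); positivity
    linarith [h0' (k + s1)]
  have gq : ∀ s, g s * ((q (s + 1) : ℝ) - q s) = 2 ^ (s + 1) := fun s => by
    rw [hg', div_mul_cancel₀ _ (dq s).ne']
  have d2 : ∀ k, q (k + s1) + 4 ≤ q (k + s1 + 1) := by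
    intro k
    have h2 := gq (k + s1)
    have h3 : (1 : ℝ) ≤ 2 ^ (k + s1 + 1) := one_le_pow₀ (by norm_num)
    have h4 := mul_le_mul_of_nonneg_right (gs k) (dq (k + s1)).le
    have : (q (k + s1) : ℝ) + 4 ≤ q (k + s1 + 1) := by linarith
    exact_mod_cast this
  obtain ⟨r, r0, hr⟩ : ∃ r : ℝ, 0 < r ∧ r ^ 2 = 1 / 2 :=
    ⟨√(1 / 2), by positivity, Real.sq_sqrt (by norm_num)⟩
  have r1 : r ≤ 1 := by nlinarith
  have r2 : 1 / 2 ≤ r := by nlinarith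
  have rp : ∀ s : ℕ, (r ^ s) ^ 2 = (1 / 2) ^ s := fun s => by rw [← pow_mul, mul_comm, pow_mul, hr]
  obtain ⟨ρ, ρ0, ρs⟩ : ∃ ρ : ℕ → ℕ, ρ 0 = 0 ∧ ∀ k, ρ (k + 1) = q (k + s1 + 1) / 2 :=
    ⟨fun k => Nat.casesOn k 0 fun k => q (k + s1 + 1) / 2, rfl, fun _ => rfl⟩
  obtain ⟨a, a0, as⟩ : ∃ a : ℕ → ℝ, a 0 = r ^ (s1 + 1) ∧ ∀ k, a (k + 1) = r ^ (k + s1 + 1) :=
    ⟨fun k => Nat.casesOn k (r ^ (s1 + 1)) fun k => r ^ (k + s1 + 1), rfl, fun _ => rfl⟩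
  obtain ⟨p, p0, ps⟩ : ∃ p : ℕ → ℝ, p 0 = 0 ∧
      ∀ k, p (k + 1) = 5 / (r ^ (k + 1 + s1 + 1) * ((ρ (k + 1 + 1) : ℝ) - ρ (k + 1))) :=
    ⟨fun k => Nat.casesOn k 0 fun k =>
      5 / (r ^ (k + 1 + s1 + 1) * ((ρ (k + 1 + 1) : ℝ) - ρ (k + 1))), rfl, fun _ => rfl⟩
  have hL : ∀ k, ((q (k + 1 + s1 + 1) : ℝ) - q (k + 1 + s1)) ≤
      4 * ((ρ (k + 1 + 1) : ℝ) - ρ (k + 1)) := by
    intro k
    have h2 := d2 (k + 1)
    have h3 : q (k + 1 + s1 + 1) + 4 * ρ (k + 1) ≤ 4 * ρ (k + 1 + 1) + q (k + 1 + s1) := by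
      rw [ρs, ρs, show k + s1 + 1 = k + 1 + s1 by ring]; omega
    have : ((q (k + 1 + s1 + 1) + 4 * ρ (k + 1) : ℕ) : ℝ) ≤
      (4 * ρ (k + 1 + 1) + q (k + 1 + s1) : ℕ) := by exact_mod_cast h3
    push_cast at this; linarith
  have L0 : ∀ k, (0 : ℝ) < (ρ (k + 1 + 1) : ℝ) - ρ (k + 1) := fun k => by
    have := hL k; have := dq (k + 1 + s1); linarith
  have hG : ∀ k, 1 ≤ 4 * g (k + 1 + s1) *
      ((r ^ (k + 1 + s1 + 1)) ^ 2 * ((ρ (k + 1 + 1) : ℝ) - ρ (k + 1))) := by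
    intro k
    have h2 := gq (k + 1 + s1)
    have h3 : (r ^ (k + 1 + s1 + 1)) ^ 2 * 2 ^ (k + 1 + s1 + 1) = 1 := by
      rw [rp, ← mul_pow]; norm_num
    rw [← h2] at h3
    have h4 := mul_le_mul_of_nonneg_left (hL k)
      (mul_nonneg (sq_nonneg (r ^ (k + 1 + s1 + 1))) (g0 (k + 1 + s1)).le)
    linarith
  refine c.phases τ h0 h1 ρ ρ0 ?_ a (fun k => r ^ (k + s1 + 1)) p as (fun k => by positivity)
    ?_ ?_ ?_ ?_ ?_ (fun k => 10000 * h (k + s1) + 200 * g (k + s1)) ?_ hS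
    (Finsupp.onFinset (range (2 ^ (s1 + 1))) (fun k => if k < 2 ^ (s1 + 1) then a 0 else 0)
      (fun k hk => by by_contra hc; simp_all)) ?_ ?_ ?_
  · intro k
    cases k with
    | zero => rw [ρ0, ρs]; have := d2 0; omega
    | succ k => have := L0 k; exact_mod_cast sub_pos.1 this
  · intro k
    cases k with
    | zero => simp [a0]
    | succ k => rw [as]; exact pow_le_pow_of_le_one r0.le r1 (by omega)
  · intro k
    cases k with
    | zero => simp only [a0, zero_add]; have := pow_pos r0 (s1 + 1); linarith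
    | succ k =>
      rw [as, show k + 1 + s1 + 1 = k + s1 + 1 + 1 by ring, pow_succ _ (k + s1 + 1)]
      have := pow_pos r0 (k + s1 + 1)
      nlinarith
  · intro k
    cases k with
    | zero => exact p0.ge
    | succ k => rw [ps]; have := L0 k; positivity
  · intro k
    cases k with
    | zero => rw [p0]; positivity
    | succ k =>
      have h2 := L0 k
      rw [ps, div_le_iff₀ (by positivity)]
      have h3 := hG k
      have h4 := mul_le_mul_of_nonneg_right (gs (k + 1)) (mul_nonneg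
        (sq_nonneg (r ^ (k + 1 + s1 + 1))) h2.le)
      nlinarith
  · intro k
    cases k with
    | zero => left; simp [a0]
    | succ k =>
      right
      have h2 := L0 k
      rw [ps]
      have : ((ρ (k + 1 + 1) : ℝ) - ρ (k + 1)) * (r ^ (k + 1 + s1 + 1) *
        (5 / (r ^ (k + 1 + s1 + 1) * ((ρ (k + 1 + 1) : ℝ) - ρ (k + 1)))) / 5) = 1 := by
        field_simp
      linarith
  · intro k
    have hy : Y (2 * ρ (k + 1)) ≤ Y (q (k + s1 + 1)) := Ym (by rw [ρs]; omega)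
    rw [← hY]
    cases k with
    | zero =>
      rw [p0, a0, rp, hh']
      have h2 := mul_le_mul_of_nonneg_left hy (show (0 : ℝ) ≤ (1 / 2) ^ (s1 + 1) by positivity)
      have h3 := g0 (0 + s1)
      have h4 := mul_nonneg (show (0 : ℝ) ≤ (1 / 2) ^ (s1 + 1) by positivity) (Y0 (q (0 + s1 + 1)))
      simp only [zero_add] at h2 h3 h4 ⊢
      nlinarith
    | succ k =>
      have h2 := L0 k
      have e1 : a (k + 1) ^ 2 = 2 * (1 / 2) ^ (k + 1 + s1 + 1) := by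
        rw [as, rp, show k + 1 + s1 + 1 = k + s1 + 1 + 1 by ring, pow_succ _ (k + s1 + 1)]; ring
      have h3 := mul_le_mul_of_nonneg_left hy
        (show (0 : ℝ) ≤ (1 / 2) ^ (k + 1 + s1 + 1) by positivity)
      have e2 : ((ρ (k + 1 + 1) : ℝ) - ρ (k + 1)) * (2 * p (k + 1) ^ 2) =
          50 / ((r ^ (k + 1 + s1 + 1)) ^ 2 * ((ρ (k + 1 + 1) : ℝ) - ρ (k + 1))) := by
        rw [ps]; field_simp; norm_num
      have h4 : 50 / ((r ^ (k + 1 + s1 + 1)) ^ 2 * ((ρ (k + 1 + 1) : ℝ) - ρ (k + 1))) ≤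
          200 * g (k + 1 + s1) := by
        rw [div_le_iff₀ (by positivity)]
        linarith [hG k]
      rw [e1, e2, hh']
      linarith
  · intro k
    simp only [Finsupp.onFinset_apply, a0]
    split_ifs <;> positivity
  · intro k
    simp only [Finsupp.onFinset_apply, a0]
    split_ifs <;> [exact le_rfl; positivity]
  · unfold En
    rw [Finsupp.sum_of_support_subset _ Finsupp.support_onFinset_subset _ (by simp),
      sum_congr rfl (g := fun _ => (1 / 2 : ℝ) ^ (s1 + 1)) (fun k hk => by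
        rw [Finsupp.onFinset_apply, if_pos (mem_range.1 hk), a0, rp])]
    simp only [sum_const, card_range, nsmul_eq_mul, Nat.cast_pow, Nat.cast_ofNat, ← mul_pow]
    norm_num

end Pool.Agent.H.MP_8ec86e_an
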