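import Mathlib
import Pool.Agent.H.MP_8ec86e_an.C

set_option autoImplicit false

namespace Pool.Agent.H.MP_8ec86e_an

open Filter Topology MeasureTheory Set
open scoped InnerProductSpace unitInterval

noncomputable abbrev E1 := Lp ℝ 2 (volume : Measure I)
noncomputable abbrev H2 := Lp ℝ 2 (volume : Measure (I × I))

theorem mem_tens (u v : E1) : MemLp (fun p : I × I => u p.1 * v p.2) 2 volume := by
  have hu := Lp.memLp u
  have hv := Lp.memLp v
  have m : AEStronglyMeasurable (fun p : I × I => u p.1 * v p.2) (volume : Measure (I × I)) :=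
    (hu.1.comp_fst (ν := volume)).mul (hv.1.comp_snd (μ := volume))
  rw [memLp_two_iff_integrable_sq m]
  have := ((memLp_two_iff_integrable_sq hu.1).1 hu).mul_prod ((memLp_two_iff_integrable_sq hv.1).1 hv)
  simp only [mul_pow]
  exact this

noncomputable def tens (u v : E1) : H2 := (mem_tens u v).toLp _

theorem tens_ae (u v : E1) : tens u v =ᵐ[volume] fun p : I × I => u p.1 * v p.2 :=
  MemLp.coeFn_toLp _

theorem tens_inner (u v u' v' : E1) : ⟪tens u v, tens u' v'⟫_ℝ = ⟪u, u'⟫_ℝ * ⟪v, v'⟫_ℝ := by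
  rw [L2.inner_def, L2.inner_def, L2.inner_def, ← integral_prod_mul]
  refine integral_congr_ae ?_
  filter_upwards [tens_ae u v, tens_ae u' v'] with p h1 h2
  rw [h1, h2]
  simp only [RCLike.inner_apply, conj_trivial]
  ring

noncomputable def z (k : ℕ) : I := ⟨1 / ((k : ℝ) + 1), by positivity, by
  rw [div_le_one (by positivity)]; linarith [(Nat.cast_nonneg k : (0 : ℝ) ≤ k)]⟩

theorem z_anti : StrictAnti z := strictAnti_nat_of_succ_lt fun k => by
  change (1 : ℝ) / (((k + 1 : ℕ) : ℝ) + 1) < 1 / ((k : ℝ) + 1)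
  push_cast
  exact one_div_lt_one_div_of_lt (by positivity) (by linarith)

noncomputable def ind (s : Set I) (hs : MeasurableSet s) : E1 :=
  indicatorConstLp 2 hs (measure_ne_top _ _) (1 : ℝ)

theorem exists_on : ∃ e : ℕ → E1, Orthonormal ℝ e := by
  let w : ℕ → E1 := fun k => ind (Ioc (z (k + 1)) (z k)) measurableSet_Ioc
  have hw : ∀ i j, ⟪w i, w j⟫_ℝ =
      (volume : Measure I).real (Ioc (z (i + 1)) (z i) ∩ Ioc (z (j + 1)) (z j)) := fun i j =>
    L2.real_inner_indicatorConstLp_one_indicatorConstLp_one _ _ _ _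
  have w0 : ∀ i, w i ≠ 0 := by
    intro i h
    have := hw i i
    rw [h, inner_zero_left, inter_self, Measure.real, unitInterval.volume_Ioc,
      ENNReal.toReal_ofReal'] at this
    have h2 : (z (i + 1) : ℝ) < z i := z_anti (Nat.lt_succ_self i)
    rw [max_eq_left (by linarith)] at this
    linarith
  have w1 : ∀ i j, i < j → ⟪w i, w j⟫_ℝ = 0 := by
    intro i j hij
    have : Ioc (z (i + 1)) (z i) ∩ Ioc (z (j + 1)) (z j) = ∅ := by
      ext x
      simp only [mem_inter_iff, mem_Ioc, mem_empty_iff_false, iff_false]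
      rintro ⟨⟨h1, _⟩, _, h2⟩
      exact absurd (h2.trans (z_anti.antitone hij)) (not_le.2 h1)
    rw [hw, this]; simp
  refine ⟨fun k => ‖w k‖⁻¹ • w k, fun k => ?_, fun i j hij => ?_⟩
  · rw [norm_smul, norm_inv, norm_norm, inv_mul_cancel₀ (norm_ne_zero_iff.2 (w0 k))]
  · simp only [real_inner_smul_left, real_inner_smul_right]
    rcases lt_or_gt_of_ne hij with h | h
    · rw [w1 i j h]; simp
    · rw [real_inner_comm, w1 j i h]; simp

def Pi2 : Set H2 := {g | ∃ u v : E1, ‖u‖ = 1 ∧ ‖v‖ = 1 ∧ g = tens u v}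

theorem dense_Pi2 : Dense (Submodule.span ℝ Pi2 : Set H2) := by
  rw [Submodule.dense_iff_topologicalClosure_eq_top, Submodule.topologicalClosure_eq_top_iff,
    eq_bot_iff]
  intro f hf
  have h1 : ∀ u v : E1, ⟪tens u v, f⟫_ℝ = 0 := by
    intro u v
    by_cases hu : u = 0
    · have : tens u v = 0 := by
        rw [← inner_self_eq_zero (𝕜 := ℝ), tens_inner, hu]; simp
      rw [this, inner_zero_left]
    by_cases hv : v = 0
    · have : tens u v = 0 := by
        rw [← inner_self_eq_zero (𝕜 := ℝ), tens_inner, hv]; simp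
      rw [this, inner_zero_left]
    have hu' := norm_ne_zero_iff.2 hu
    have hv' := norm_ne_zero_iff.2 hv
    have e : tens u v = (‖u‖ * ‖v‖) • tens (‖u‖⁻¹ • u) (‖v‖⁻¹ • v) := by
      rw [← sub_eq_zero, ← inner_self_eq_zero (𝕜 := ℝ)]
      simp only [inner_sub_left, inner_sub_right, real_inner_smul_left, real_inner_smul_right,
        tens_inner]
      field_simp
      ring
    have h2 : ⟪tens (‖u‖⁻¹ • u) (‖v‖⁻¹ • v), f⟫_ℝ = 0 := by
      refine (Submodule.mem_orthogonal _ _).1 hf _ (Submodule.subset_span ⟨_, _, ?_, ?_, rfl⟩)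
      · rw [norm_smul, norm_inv, norm_norm, inv_mul_cancel₀ hu']
      · rw [norm_smul, norm_inv, norm_norm, inv_mul_cancel₀ hv']
    rw [e, real_inner_smul_left, h2, mul_zero]
  have fi : Integrable f volume := (Lp.memLp f).integrable (by norm_num)
  have h2 : ∀ s t : Set I, MeasurableSet s → MeasurableSet t → ∫ p in s ×ˢ t, f p = 0 := by
    intro s t hs ht
    rw [← h1 (ind s hs) (ind t ht), L2.inner_def, ← integral_indicator (hs.prod ht)]
    refine integral_congr_ae ?_
    have a1 : (fun p : I × I => ind s hs p.1) =ᵐ[volume] fun p => s.indicator (fun _ => 1) p.1 :=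
      (Measure.quasiMeasurePreserving_fst (μ := volume) (ν := volume)).ae_eq_comp
        indicatorConstLp_coeFn
    have a2 : (fun p : I × I => ind t ht p.2) =ᵐ[volume] fun p => t.indicator (fun _ => 1) p.2 :=
      (Measure.quasiMeasurePreserving_snd (μ := volume) (ν := volume)).ae_eq_comp
        indicatorConstLp_coeFn
    filter_upwards [tens_ae (ind s hs) (ind t ht), a1, a2] with p e1 e2 e3
    rw [e1, e2, e3]
    by_cases m1 : p.1 ∈ s <;> by_cases m2 : p.2 ∈ t <;> simp [indicator, m1, m2]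
  have h3 : ∀ s : Set (I × I), MeasurableSet s → ∫ p in s, f p = 0 := by
    intro s hs
    induction s, hs using MeasurableSpace.induction_on_inter generateFrom_prod.symm
      isPiSystem_prod with
    | empty => simp
    | basic t ht =>
      obtain ⟨a, ha, b, hb, rfl⟩ := ht
      exact h2 a b ha hb
    | compl t ht ih =>
      have e1 := integral_add_compl ht fi
      have e2 := h2 univ univ MeasurableSet.univ MeasurableSet.univ
      rw [univ_prod_univ, Measure.restrict_univ] at e2
      linarith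
    | iUnion g hd hm ih =>
      rw [integral_iUnion hm hd fi.integrableOn]
      simp [ih]
  rw [Submodule.mem_bot]
  exact Lp.eq_zero_iff_ae_eq_zero.2 (fi.ae_eq_zero_of_forall_setIntegral_eq_zero fun s hs _ => h3 s hs)

theorem main (τ : ℕ → ℝ) (h0 : ∀ k, 0 ≤ τ k) (h1 : ∀ k, τ k ≤ 1) :
    (∀ f : ℕ → H2, (∀ m, St Pi2 (τ m) (f m) (f (m + 1))) → Tendsto f atTop (𝓝 0)) ↔ ¬ V τ := by
  obtain ⟨e, he⟩ := exists_on
  let c : Ctx E1 H2 := ⟨e, tens, he, tens_inner⟩
  constructor
  · intro h hV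
    obtain ⟨f, f1, f2⟩ := c.diverge τ h0 h1 hV
    exact f2 (h f f1)
  · intro hV f hf
    exact conv Pi2 (fun g hg => c.normD hg) dense_Pi2 τ h0 h1 hV f hf

theorem norm_Pi2 {g : H2} (hg : g ∈ Pi2) : ‖g‖ = 1 := by
  obtain ⟨e, he⟩ := exists_on
  let c : Ctx E1 H2 := ⟨e, tens, he, tens_inner⟩
  exact c.normD hg

theorem ne_Pi2 : Pi2.Nonempty := by
  obtain ⟨e, he⟩ := exists_on
  exact ⟨_, e 0, e 0, he.1 0, he.1 0, rfl⟩

end Pool.Agent.H.MP_8ec86e_an
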